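import Mathlib

/-!
# MP_2232d5_co: squarefree words with initial non-repetitive complexity at most `2 n`

The ruler sequence is, up to renaming the letters, the only infinite squarefree word `y` with
`nsc_y (n) ≤ 2 n` for all `n ≥ 1`.

By induction on `k` we show that `y` agrees with the ruler sequence (up to renaming) on its first
`n = 2 ^ k` letters. The condition for `n / 2` and the new letter at position `n - 1` show that some
factor of length at least `n / 2` of the prefix occurs at position `n`; let `m` be the maximal length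
of such a factor. If `m < n - 1`, then the condition for `m + 1`, the description of the right
special factors of the ruler sequence, and squarefreeness leave a single possible configuration,
which is excluded by one more application of the condition.
-/

set_option autoImplicit false

namespace Pool.Agent.Results.MP_2232d5_co.RulerUnique

/-- The Zimin words. -/
def Z : ℕ → List ℕ
  | 0 => []
  | k + 1 => Z k ++ [k] ++ Z k

/-- The ruler sequence: `ruler t` is the exponent of `2` in `t + 1`. -/
def ruler (t : ℕ) : ℕ := padicValNat 2 (t + 1)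

/-- No factor of `y` is a square `uu` with `u` non-empty. -/
def SquareFree (y : ℕ → ℕ) : Prop := ∀ i p, 1 ≤ p → ¬ ∀ t < p, y (i + t) = y (i + p + t)

/-- `nsc_y (n) ≤ B`: every `m` such that the factors of length `n` at the positions
`0, …, m - 1` are pairwise distinct satisfies `m ≤ B`. -/
def NscLe (y : ℕ → ℕ) (n B : ℕ) : Prop :=
  ∀ m, (∀ i j, i < j → j ≤ m - 1 → j < m → ¬ ∀ t < n, y (i + t) = y (j + t)) → m ≤ B

/-! ### Valuations -/

theorem val_congr {a b : ℕ} (ha : a ≠ 0) (hb : b ≠ 0) (h : ∀ e, 2 ^ e ∣ a ↔ 2 ^ e ∣ b) :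
    padicValNat 2 a = padicValNat 2 b := by
  apply le_antisymm
  · rw [← padicValNat_dvd_iff_le hb, ← h]
    exact pow_padicValNat_dvd
  · rw [← padicValNat_dvd_iff_le ha, h]
    exact pow_padicValNat_dvd

theorem val_eq {a e : ℕ} (h1 : 2 ^ e ∣ a) (h2 : ¬ 2 ^ (e + 1) ∣ a) : padicValNat 2 a = e := by
  have ha : a ≠ 0 := by
    rintro rfl
    exact h2 (dvd_zero _)
  apply le_antisymm
  · by_contra hcon
    exact h2 ((padicValNat_dvd_iff_le ha).2 (by omega))
  · exact (padicValNat_dvd_iff_le ha).1 h1

theorem val_add {a w u : ℕ} (hw : 2 ^ a ∣ w) (hu : 0 < u) (hua : u < 2 ^ a) :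
    padicValNat 2 (w + u) = padicValNat 2 u := by
  refine val_congr (by omega) (by omega) fun e => ?_
  rcases Nat.lt_or_ge a e with h | h
  · have h1 : 2 ^ a ∣ 2 ^ e := pow_dvd_pow 2 (by omega)
    constructor
    · intro h2
      have h3 : 2 ^ a ∣ u := (Nat.dvd_add_right hw).1 (h1.trans h2)
      have := Nat.le_of_dvd hu h3
      omega
    · intro h2
      have := Nat.le_of_dvd hu (h1.trans h2)
      omega
  · exact Nat.dvd_add_right ((pow_dvd_pow 2 h).trans hw)

theorem val_sub {k u : ℕ} (hu : 0 < u) (huk : u < 2 ^ k) :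
    padicValNat 2 (2 ^ k - u) = padicValNat 2 u := by
  refine val_congr (by omega) (by omega) fun e => ?_
  rcases Nat.lt_or_ge k e with h | h
  · have h1 : 2 ^ k ≤ 2 ^ e := Nat.pow_le_pow_right (by norm_num) (by omega)
    constructor
    · intro h2
      have := Nat.le_of_dvd (by omega) h2
      omega
    · intro h2
      have := Nat.le_of_dvd hu h2
      omega
  · have h1 : 2 ^ e ∣ 2 ^ k := pow_dvd_pow 2 h
    constructor
    · intro h2
      have h3 := Nat.dvd_sub h1 h2
      rwa [show 2 ^ k - (2 ^ k - u) = u by omega] at h3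
    · intro h2
      exact Nat.dvd_sub h1 h2

theorem val_pow (k : ℕ) : padicValNat 2 (2 ^ k) = k := by simp

theorem val_lt {k t : ℕ} (h0 : 0 < t) (h : t < 2 ^ k) : padicValNat 2 t < k := by
  by_contra hcon
  have h1 : 2 ^ k ∣ t := (padicValNat_dvd_iff_le (by omega)).2 (by omega)
  have := Nat.le_of_dvd h0 h1
  omega

/-- A positive multiple of `2 ^ e` below a power of two is at most that power minus `2 ^ e`. -/
theorem mult_le {k e t : ℕ} (h0 : 0 < t) (he : 2 ^ e ∣ t) (h : t < 2 ^ k) : t + 2 ^ e ≤ 2 ^ k := by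
  have hle := Nat.le_of_dvd h0 he
  rcases Nat.lt_or_ge k e with h1 | h1
  · have h2 : 2 ^ k < 2 ^ e := Nat.pow_lt_pow_right (by norm_num) h1
    omega
  · obtain ⟨w, rfl⟩ := he
    obtain ⟨v, hv⟩ := pow_dvd_pow 2 h1
    rw [hv] at h ⊢
    have : w < v := by
      by_contra hcon
      have := Nat.mul_le_mul_left (2 ^ e) (not_lt.1 hcon)
      omega
    calc 2 ^ e * w + 2 ^ e = 2 ^ e * (w + 1) := by ring
      _ ≤ 2 ^ e * v := Nat.mul_le_mul_left _ this

/-- Right special factors of the ruler sequence. -/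
theorem right_special {a b L : ℕ}
    (h : ∀ t < L, padicValNat 2 (a + t + 1) = padicValNat 2 (b + t + 1))
    (hlt : padicValNat 2 (a + L + 1) < padicValNat 2 (b + L + 1)) :
    L < 2 ^ padicValNat 2 (a + L + 1) := by
  by_contra hcon
  obtain ⟨c, hc⟩ : ∃ c, c = padicValNat 2 (a + L + 1) := ⟨_, rfl⟩
  rw [← hc] at hcon hlt
  rw [not_lt] at hcon
  have h1 := h (L - 2 ^ c) (by have := Nat.one_le_two_pow (n := c); omega)
  have hpos := Nat.one_le_two_pow (n := c)
  have hA : 2 ^ c ∣ a + L + 1 := by
    rw [hc]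
    exact pow_padicValNat_dvd
  have hA' : ¬ 2 ^ (c + 1) ∣ a + L + 1 := by
    rw [hc]
    exact pow_succ_padicValNat_not_dvd (by omega)
  have hB : 2 ^ (c + 1) ∣ b + L + 1 := (padicValNat_dvd_iff_le (by omega)).2 (by omega)
  have e1 : padicValNat 2 (b + (L - 2 ^ c) + 1) = c := by
    apply val_eq
    · have : b + (L - 2 ^ c) + 1 = b + L + 1 - 2 ^ c := by omega
      rw [this]
      exact Nat.dvd_sub ((pow_dvd_pow 2 (by omega)).trans hB) dvd_rfl
    · intro h2
      have h3 := Nat.dvd_sub hB h2
      rw [show b + L + 1 - (b + (L - 2 ^ c) + 1) = 2 ^ c by omega] at h3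
      have h4 := Nat.le_of_dvd (by omega) h3
      rw [pow_succ] at h4
      omega
  have e2 : c + 1 ≤ padicValNat 2 (a + (L - 2 ^ c) + 1) := by
    rw [← padicValNat_dvd_iff_le (by omega)]
    obtain ⟨w, hw⟩ := hA
    have hodd : ¬ 2 ∣ w := by
      rintro ⟨v, rfl⟩
      exact hA' ⟨v, by rw [hw]; ring⟩
    obtain ⟨v, hv⟩ : ∃ v, w = 2 * v + 1 := ⟨w / 2, by omega⟩
    refine ⟨v, ?_⟩
    have : a + (L - 2 ^ c) + 1 = a + L + 1 - 2 ^ c := by omega
    rw [this, hw, hv]
    have : 2 ^ c * (2 * v + 1) = 2 ^ (c + 1) * v + 2 ^ c := by ring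
    omega
  omega

theorem right_special' {a b L : ℕ}
    (h : ∀ t < L, padicValNat 2 (a + t + 1) = padicValNat 2 (b + t + 1))
    (hne : padicValNat 2 (a + L + 1) ≠ padicValNat 2 (b + L + 1)) :
    L < 2 ^ padicValNat 2 (a + L + 1) ∧ L < 2 ^ padicValNat 2 (b + L + 1) := by
  rcases lt_or_gt_of_ne hne with h1 | h1
  · have h2 := right_special h h1
    exact ⟨h2, h2.trans (Nat.pow_lt_pow_right (by norm_num) h1)⟩
  · have h2 := right_special (fun t ht => (h t ht).symm) h1
    exact ⟨h2.trans (Nat.pow_lt_pow_right (by norm_num) h1), h2⟩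

/-! ### The induction step -/

/-- `y` agrees with the ruler sequence up to renaming on the first `2 ^ k` letters. -/
def H (y : ℕ → ℕ) (k : ℕ) : Prop := ∀ t u, t < 2 ^ k → u < 2 ^ k →
  (y t = y u ↔ padicValNat 2 (t + 1) = padicValNat 2 (u + 1))

/-- Some factor of length `m` occurs at two positions `≤ 2 m`. -/
def C (y : ℕ → ℕ) (m : ℕ) : Prop := ∃ i j, i < j ∧ j ≤ 2 * m ∧ ∀ t < m, y (i + t) = y (j + t)

theorem C_of_nsc {y : ℕ → ℕ} {m : ℕ} (h : NscLe y m (2 * m)) : C y m := by
  by_contra hcon
  have := h (2 * m + 1) fun i j hij hj _ heq => hcon ⟨i, j, hij, by omega, heq⟩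
  omega

theorem sep {y : ℕ → ℕ} (hsf : SquareFree y) {i j m : ℕ} (hij : i < j)
    (h : ∀ t < m, y (i + t) = y (j + t)) : i + m + 1 ≤ j := by
  by_contra hcon
  refine hsf i (j - i) (by omega) fun t ht => ?_
  rw [h t (by omega)]
  congr 1
  omega

theorem last_new {y : ℕ → ℕ} {k w : ℕ} (h : H y k) (hw : w + 1 < 2 ^ k) :
    y w ≠ y (2 ^ k - 1) := by
  intro heq
  rw [h w (2 ^ k - 1) (by omega) (by omega), show 2 ^ k - 1 + 1 = 2 ^ k by omega, val_pow] at heq
  have := val_lt (by omega : 0 < w + 1) hw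
  omega

theorem step {y : ℕ → ℕ} (hsf : SquareFree y) (hC : ∀ m, 1 ≤ m → C y m) {K : ℕ}
    (h : H y (K + 1)) : ∀ t, t + 1 < 2 ^ (K + 1) → y t = y (2 ^ (K + 1) + t) := by
  classical
  obtain ⟨N, hN⟩ : ∃ N, N = 2 ^ K := ⟨_, rfl⟩
  obtain ⟨n, hn⟩ : ∃ n, n = 2 ^ (K + 1) := ⟨_, rfl⟩
  have hnN : n = 2 * N := by rw [hn, hN]; ring
  have hN1 : 1 ≤ N := by rw [hN]; exact Nat.one_le_two_pow
  have hval : ∀ t u, t < n → u < n → (y t = y u ↔
      padicValNat 2 (t + 1) = padicValNat 2 (u + 1)) := by
    rw [hn]; exact h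
  have hlast : ∀ w, w + 1 < n → y w ≠ y (n - 1) := by
    rw [hn]; exact fun w hw => last_new h hw
  rw [← hn]
  -- a repeated factor of length at least `N` does not start before `n`
  have noEarly : ∀ i j m, i < j → j < n → N ≤ m → (∀ t < m, y (i + t) = y (j + t)) → False := by
    intro i j m hij hj hm heq
    have h1 := sep hsf hij heq
    have h2 := heq (n - 1 - j) (by omega)
    rw [show j + (n - 1 - j) = n - 1 by omega] at h2
    exact hlast _ (by omega) h2
  have hPN : ∃ i, i < n ∧ ∀ t < N, y (i + t) = y (n + t) := by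
    obtain ⟨i, j, hij, hj, heq⟩ := hC N hN1
    rcases Nat.lt_or_ge j n with h1 | h1
    · exact absurd heq fun heq => noEarly i j N hij h1 le_rfl heq
    · obtain rfl : j = n := by omega
      exact ⟨i, hij, heq⟩
  obtain ⟨m, hmN, ⟨i', hi', hm⟩, hmax⟩ : ∃ m, N ≤ m ∧ (∃ i, i < n ∧ ∀ t < m, y (i + t) = y (n + t)) ∧
      ¬ ∃ i, i < n ∧ ∀ t < m + 1, y (i + t) = y (n + t) := by
    by_contra hcon
    push Not at hcon
    have hall : ∀ d, ∃ i, i < n ∧ ∀ t < N + d, y (i + t) = y (n + t) := by
      intro d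
      induction d with
      | zero => exact hPN
      | succ d ih =>
        exact hcon (N + d) (by omega) ih
    obtain ⟨i, hi, heq⟩ := hall n
    have := sep hsf hi heq
    omega
  have hsep := sep hsf hi' hm
  rcases Nat.lt_or_ge (n - 2) m with hbig | hsmall
  · -- `m = n - 1`, `i' = 0`
    intro t ht
    have := hm t (by omega)
    rwa [show i' + t = t by omega] at this
  exfalso
  have hne0 : y (i' + m) ≠ y (n + m) := by
    intro heq
    refine hmax ⟨i', hi', fun t ht => ?_⟩
    rcases Nat.lt_or_ge t m with h1 | h1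
    · exact hm t h1
    · obtain rfl : t = m := by omega
      exact heq
  -- the condition for `m + 1`
  obtain ⟨i2, j2, hij2, hj2, heq2⟩ := hC (m + 1) (by omega)
  have hs2 := sep hsf hij2 heq2
  have hj2n : n < j2 := by
    rcases lt_trichotomy j2 n with h1 | h1 | h1
    · exact absurd heq2 fun heq2 => noEarly i2 j2 (m + 1) hij2 h1 (by omega) heq2
    · exact absurd ⟨i2, by omega, by rw [← h1]; exact heq2⟩ hmax
    · exact h1
  obtain ⟨L, hL⟩ : ∃ L, L = n + m - j2 := ⟨_, rfl⟩
  have hiL : i2 + L + 2 ≤ n := by omega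
  have hv : ∀ t < L, padicValNat 2 (i2 + t + 1) = padicValNat 2 (i' + (j2 - n) + t + 1) := by
    intro t ht
    rw [← hval _ _ (by omega) (by omega), heq2 t (by omega)]
    have := hm (j2 - n + t) (by omega)
    rw [← add_assoc] at this
    rw [this]
    congr 1
    omega
  have hx1 : y (i2 + L) = y (n + m) := by
    rw [heq2 L (by omega)]
    congr 1
    omega
  have hvne : padicValNat 2 (i2 + L + 1) ≠ padicValNat 2 (i' + (j2 - n) + L + 1) := by
    rw [Ne, ← hval _ _ (by omega) (by omega), hx1, show i' + (j2 - n) + L = i' + m by omega]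
    exact fun h1 => hne0 h1.symm
  obtain ⟨hLx, hLz⟩ := right_special' hv hvne
  rw [show i' + (j2 - n) + L + 1 = i' + m + 1 by omega] at hLz hvne
  obtain ⟨x, hx⟩ : ∃ x, x = padicValNat 2 (i2 + L + 1) := ⟨_, rfl⟩
  obtain ⟨z, hz⟩ : ∃ z, z = padicValNat 2 (i' + m + 1) := ⟨_, rfl⟩
  rw [← hx] at hLx hvne
  rw [← hz] at hLz hvne
  have hdx : 2 ^ x ∣ i2 + L + 1 := by rw [hx]; exact pow_padicValNat_dvd
  have hdz : 2 ^ z ∣ i' + m + 1 := by rw [hz]; exact pow_padicValNat_dvd
  have hxK : x ≤ K := by
    have := val_lt (k := K + 1) (by omega : 0 < i2 + L + 1) (by omega)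
    omega
  have hxN : 2 ^ x ≤ N := by rw [hN]; exact Nat.pow_le_pow_right (by norm_num) hxK
  have hx0 : 1 ≤ 2 ^ x := Nat.one_le_two_pow
  have hdn : 2 ^ x ∣ n := by rw [hn]; exact pow_dvd_pow 2 (by omega)
  have hmx : i2 + L + 1 + 2 ^ x ≤ n := by
    rw [hn]
    exact mult_le (by omega) hdx (by omega)
  rcases Nat.lt_or_ge (i' + m + 1) n with hcase | hcase
  · -- type F
    have hmz : i' + m + 1 + 2 ^ z ≤ n := by
      rw [hn]
      exact mult_le (by omega) hdz (by omega)
    have hi0 : i' = 0 := by omega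
    subst hi0
    have hzx : z < x := by
      rcases Nat.lt_or_ge z x with h1 | h1
      · exact h1
      · exfalso
        have h2 : 2 ^ x ≤ 2 ^ z := Nat.pow_le_pow_right (by norm_num) h1
        have h3 : x < z := by omega
        have h4 : 2 ^ x < 2 ^ z := Nat.pow_lt_pow_right (by norm_num) h3
        omega
    have hpow : 2 ^ z < 2 ^ x := Nat.pow_lt_pow_right (by norm_num) hzx
    refine hsf (n + (n - 2 ^ x - 1)) (2 ^ x - 2 ^ z) (by omega) fun t ht => ?_
    have e1 : y (n + (n - 2 ^ x - 1) + t) = y (n - 2 ^ x - 1 + t) := by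
      have := hm (n - 2 ^ x - 1 + t) (by omega)
      rw [zero_add] at this
      rw [this, add_assoc]
    have e2 : y (n + (n - 2 ^ x - 1) + (2 ^ x - 2 ^ z) + t) = y (i2 + L + t) := by
      have := heq2 (L + t) (by omega)
      rw [← add_assoc] at this
      rw [this]
      congr 1
      omega
    rw [e1, e2, hval _ _ (by omega) (by omega), show n - 2 ^ x - 1 + t + 1 = n - 2 ^ x + t by omega,
      show i2 + L + t + 1 = i2 + L + 1 + t by ring]
    rcases Nat.eq_zero_or_pos t with rfl | ht0
    · rw [add_zero, add_zero, ← hx, hn, val_sub (by omega) (by omega), val_pow]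
    · rw [val_add (Nat.dvd_sub hdn dvd_rfl) ht0 (by omega), val_add hdx ht0 (by omega)]
  · -- type E
    have hE : i' + m + 1 = n := by omega
    have suf : ∀ u, 1 ≤ u → u ≤ m → y (n + m - u) = y (n - 1 - u) := by
      intro u hu1 hu2
      have := hm (m - u) (by omega)
      rw [show n + m - u = n + (m - u) by omega, ← this]
      congr 1
      omega
    have hxe : x = K := by
      by_contra hcon
      have h1 : 2 ^ (x + 1) ≤ N := by rw [hN]; exact Nat.pow_le_pow_right (by norm_num) (by omega)
      have h2 : 2 ^ (x + 1) = 2 * 2 ^ x := by ring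
      refine hsf (n + m + 1 - 2 ^ (x + 1)) (2 ^ x) hx0 fun t ht => ?_
      rw [show n + m + 1 - 2 ^ (x + 1) + t = n + m - (2 ^ (x + 1) - 1 - t) by omega,
        suf _ (by omega) (by omega)]
      rcases Nat.lt_or_ge (t + 1) (2 ^ x) with h3 | h3
      · rw [show n + m + 1 - 2 ^ (x + 1) + 2 ^ x + t = n + m - (2 ^ x - 1 - t) by omega,
          suf _ (by omega) (by omega), hval _ _ (by omega) (by omega),
          show n - 1 - (2 ^ (x + 1) - 1 - t) + 1 = n - (2 ^ x + (2 ^ x - 1 - t)) by omega,
          show n - 1 - (2 ^ x - 1 - t) + 1 = n - (2 ^ x - 1 - t) by omega, hn,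
          val_sub (by omega) (by omega), val_sub (by omega) (by omega),
          val_add dvd_rfl (by omega) (by omega)]
      · rw [show n + m + 1 - 2 ^ (x + 1) + 2 ^ x + t = n + m by omega, ← hx1,
          hval _ _ (by omega) (by omega),
          show n - 1 - (2 ^ (x + 1) - 1 - t) + 1 = n - 2 ^ x by omega, ← hx, hn,
          val_sub (by omega) (by omega), val_pow]
    have hNdvd : ∀ w, N ∣ w → 0 < w → w < n → w = N := by
      rintro w ⟨v, rfl⟩ h1 h2
      have hv0 : 0 < v := by
        rcases Nat.eq_zero_or_pos v with rfl | h3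
        · simp at h1
        · exact h3
      have hv2 : v < 2 := by
        by_contra h3
        have := Nat.mul_le_mul_left N (not_lt.1 h3)
        omega
      obtain rfl : v = 1 := by omega
      ring
    have hi2 : i2 + L + 1 = N := by
      refine hNdvd _ ?_ (by omega) (by omega)
      rw [hN, ← hxe]
      exact hdx
    obtain ⟨J, hJ⟩ : ∃ J, J = N + 1 + m := ⟨_, rfl⟩
    have hJ1 : ∀ t < i2 + m + 1, y (J + t) = y t := by
      intro t ht
      rcases Nat.lt_or_ge t i2 with h1 | h1
      · rw [show J + t = n + m - (N - 1 - t) by omega, suf _ (by omega) (by omega),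
          hval _ _ (by omega) (by omega), show n - 1 - (N - 1 - t) + 1 = N + (t + 1) by omega,
          hN, val_add dvd_rfl (by omega) (by omega)]
      · have := heq2 (t - i2) (by omega)
        rw [show i2 + (t - i2) = t by omega] at this
        rw [this]
        congr 1
        omega
    obtain ⟨μ, hμ0, hμ1, hμ2⟩ : ∃ μ, i2 + m + 1 ≤ μ ∧ (∀ t < μ, y (J + t) = y t) ∧
        y (J + μ) ≠ y μ := by
      by_contra hcon
      push Not at hcon
      have hall : ∀ d, ∀ t < i2 + m + 1 + d, y (J + t) = y t := by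
        intro d
        induction d with
        | zero => exact hJ1
        | succ d ih =>
          intro t ht
          rcases Nat.lt_or_ge t (i2 + m + 1 + d) with h1 | h1
          · exact ih t h1
          · obtain rfl : t = i2 + m + 1 + d := by omega
            exact hcon _ (by omega) ih
      have := sep hsf (i := 0) (j := J) (m := i2 + m + 1 + J) (by omega) fun t ht => by
        rw [zero_add]
        exact (hall J t ht).symm
      omega
    have hμn : μ + 2 ≤ n := by
      by_contra hcon
      refine hsf (J - 1) N hN1 fun t ht => ?_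
      rcases Nat.eq_zero_or_pos t with rfl | ht0
      · rw [add_zero, add_zero, show J - 1 = n + m - N by omega, suf _ hN1 hmN,
          show n + m - N + N = J + (N - 1) by omega, hμ1 _ (by omega)]
        congr 1
        omega
      · rw [show J - 1 + t = J + (t - 1) by omega, hμ1 _ (by omega),
          show J - 1 + N + t = J + (N + t - 1) by omega, hμ1 _ (by omega),
          hval _ _ (by omega) (by omega), show t - 1 + 1 = t by omega,
          show N + t - 1 + 1 = N + t by omega, hN, val_add dvd_rfl ht0 (by omega)]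
    obtain ⟨i3, j3, hij3, hj3, heq3⟩ := hC (μ + 1) (by omega)
    have hs3 := sep hsf hij3 heq3
    have hj3n : n < j3 := by
      rcases lt_trichotomy j3 n with h1 | h1 | h1
      · exact absurd heq3 fun heq3 => noEarly i3 j3 (μ + 1) hij3 h1 (by omega) heq3
      · exact absurd ⟨i3, by omega, fun t ht => by rw [← h1]; exact heq3 t (by omega)⟩ hmax
      · exact h1
    rcases Nat.lt_or_ge (n + m) j3 with h3 | h3
    · obtain ⟨L3, hL3⟩ : ∃ L3, L3 = J + μ - j3 := ⟨_, rfl⟩
      have e3 : ∀ t < L3, y (i3 + t) = y (j3 - J + t) := by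
        intro t ht
        rw [heq3 t (by omega), ← hμ1 (j3 - J + t) (by omega)]
        congr 1
        omega
      have hne3 : y (i3 + L3) ≠ y μ := by
        rw [heq3 L3 (by omega), show j3 + L3 = J + μ by omega]
        exact hμ2
      rcases Nat.lt_or_ge (i3 + L3) n with h4 | h4
      · have hv3 : ∀ t < L3, padicValNat 2 (i3 + t + 1) = padicValNat 2 (j3 - J + t + 1) := by
          intro t ht
          rw [← hval _ _ (by omega) (by omega)]
          exact e3 t ht
        have hvne3 : padicValNat 2 (i3 + L3 + 1) ≠ padicValNat 2 (j3 - J + L3 + 1) := by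
          rw [Ne, ← hval _ _ (by omega) (by omega), show j3 - J + L3 = μ by omega]
          exact hne3
        obtain ⟨-, h5⟩ := right_special' hv3 hvne3
        rw [show j3 - J + L3 + 1 = μ + 1 by omega] at h5
        have h6 : μ + 1 + 2 ^ padicValNat 2 (μ + 1) ≤ n := by
          rw [hn]
          exact mult_le (by omega) pow_padicValNat_dvd (by omega)
        omega
      · have h5 := e3 (n - 1 - i3) (by omega)
        rw [show i3 + (n - 1 - i3) = n - 1 by omega] at h5
        exact hlast _ (by omega) h5.symm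
    · obtain ⟨L3, hL3⟩ : ∃ L3, L3 = n + m - j3 := ⟨_, rfl⟩
      have h4 : y (i3 + L3) = y (i2 + L) := by
        rw [hx1, heq3 L3 (by omega)]
        congr 1
        omega
      rw [hval _ _ (by omega) (by omega), ← hx, hxe] at h4
      have h5 : i3 + L3 + 1 = N := by
        refine hNdvd _ ?_ (by omega) (by omega)
        rw [hN, ← h4]
        exact pow_padicValNat_dvd
      refine hμ2 ?_
      have h6 := heq3 (μ - i3) (by omega)
      rw [show i3 + (μ - i3) = μ by omega] at h6
      rw [h6]
      congr 1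
      omega

theorem H_succ {y : ℕ → ℕ} (hsf : SquareFree y) (hC : ∀ m, 1 ≤ m → C y m) {K : ℕ}
    (h : H y (K + 1)) : H y (K + 2) := by
  have hst := step hsf hC h
  obtain ⟨n, hn⟩ : ∃ n, n = 2 ^ (K + 1) := ⟨_, rfl⟩
  have hn1 : 1 ≤ n := by rw [hn]; exact Nat.one_le_two_pow
  have hn2 : 2 ^ (K + 2) = 2 * n := by rw [hn]; ring
  have hval : ∀ t u, t < n → u < n → (y t = y u ↔
      padicValNat 2 (t + 1) = padicValNat 2 (u + 1)) := by
    rw [hn]; exact h
  rw [← hn] at hst
  -- reduction modulo `n`
  have red : ∀ t, t + 1 < 2 * n → ∃ w, w < n ∧ y t = y w ∧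
      padicValNat 2 (t + 1) = padicValNat 2 (w + 1) := by
    intro t ht
    rcases Nat.lt_or_ge t n with h1 | h1
    · exact ⟨t, h1, rfl, rfl⟩
    · refine ⟨t - n, by omega, ?_, ?_⟩
      · rw [hst (t - n) (by omega)]
        congr 1
        omega
      · rw [show t + 1 = n + (t - n + 1) by omega, hn, val_add dvd_rfl (by omega) (by omega)]
  -- the last letter is new
  have hlast : ∀ w < n, y w ≠ y (2 * n - 1) := by
    intro w hw heq
    obtain ⟨c, hc⟩ : ∃ c, c = padicValNat 2 (w + 1) := ⟨_, rfl⟩
    have hdc : 2 ^ c ∣ w + 1 := by rw [hc]; exact pow_padicValNat_dvd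
    have hc1 := Nat.le_of_dvd (by omega) hdc
    have hc0 : 1 ≤ 2 ^ c := Nat.one_le_two_pow
    rcases Nat.lt_or_ge (w + 1) n with h1 | h1
    · have h2 : w + 1 + 2 ^ c ≤ n := by
        rw [hn]
        exact mult_le (by omega) hdc (by omega)
      refine hsf (2 * n - 2 * 2 ^ c) (2 ^ c) hc0 fun t ht => ?_
      have e1 := hst (n - 2 * 2 ^ c + t) (by omega)
      rw [show 2 * n - 2 * 2 ^ c + t = n + (n - 2 * 2 ^ c + t) by omega, ← e1]
      rcases Nat.lt_or_ge (t + 1) (2 ^ c) with h3 | h3
      · have e2 := hst (n - 2 ^ c + t) (by omega)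
        rw [show 2 * n - 2 * 2 ^ c + 2 ^ c + t = n + (n - 2 ^ c + t) by omega, ← e2,
          hval _ _ (by omega) (by omega),
          show n - 2 * 2 ^ c + t + 1 = n - (2 ^ c + (2 ^ c - 1 - t)) by omega,
          show n - 2 ^ c + t + 1 = n - (2 ^ c - 1 - t) by omega, hn,
          val_sub (by omega) (by omega), val_sub (by omega) (by omega),
          val_add dvd_rfl (by omega) (by omega)]
      · rw [show 2 * n - 2 * 2 ^ c + 2 ^ c + t = 2 * n - 1 by omega, ← heq,
          hval _ _ (by omega) (by omega), ← hc,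
          show n - 2 * 2 ^ c + t + 1 = n - 2 ^ c by omega, hn,
          val_sub (by omega) (by omega), val_pow]
    · have hw' : w = n - 1 := by omega
      subst hw'
      refine hsf 0 n hn1 fun t ht => ?_
      rw [zero_add, zero_add]
      rcases Nat.lt_or_ge (t + 1) n with h3 | h3
      · exact hst t h3
      · rw [show t = n - 1 by omega, heq]
        congr 1
        omega
  have hlast' : ∀ t, t + 1 < 2 * n → y t ≠ y (2 * n - 1) ∧
      padicValNat 2 (t + 1) ≠ padicValNat 2 (2 * n - 1 + 1) := by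
    intro t ht
    obtain ⟨w, hw, h1, h2⟩ := red t ht
    refine ⟨by rw [h1]; exact hlast w hw, ?_⟩
    rw [show 2 * n - 1 + 1 = 2 ^ (K + 2) by omega, val_pow]
    exact (val_lt (by omega) (by omega)).ne
  intro t u ht hu
  rw [hn2] at ht hu
  rcases Nat.lt_or_ge (t + 1) (2 * n) with h1 | h1
  · rcases Nat.lt_or_ge (u + 1) (2 * n) with h2 | h2
    · obtain ⟨a, ha, ha1, ha2⟩ := red t h1
      obtain ⟨b, hb, hb1, hb2⟩ := red u h2
      rw [ha1, ha2, hb1, hb2]
      exact hval a b ha hb
    · obtain rfl : u = 2 * n - 1 := by omega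
      obtain ⟨h3, h4⟩ := hlast' t h1
      exact iff_of_false h3 h4
  · obtain rfl : t = 2 * n - 1 := by omega
    rcases Nat.lt_or_ge (u + 1) (2 * n) with h2 | h2
    · obtain ⟨h3, h4⟩ := hlast' u h2
      exact iff_of_false (Ne.symm h3) (Ne.symm h4)
    · obtain rfl : u = 2 * n - 1 := by omega
      simp

theorem H_all {y : ℕ → ℕ} (hsf : SquareFree y) (hC : ∀ m, 1 ≤ m → C y m) (K : ℕ) :
    H y (K + 1) := by
  induction K with
  | zero =>
    have h01 : y 0 ≠ y 1 := fun h => hsf 0 1 le_rfl fun t ht => by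
      obtain rfl : t = 0 := by omega
      exact h
    have v1 : padicValNat 2 1 = 0 := by simp
    have v2 : padicValNat 2 2 = 1 := by simp
    intro t u ht hu
    norm_num at ht hu
    interval_cases t <;> interval_cases u <;> simp [h01, Ne.symm h01]
  | succ K ih => exact H_succ hsf hC ih

/-! ### The ruler sequence has the property -/

theorem Z_eq (k : ℕ) : Z k = (List.range (2 ^ k - 1)).map ruler := by
  induction k with
  | zero => rfl
  | succ k ih =>
    have h1 : 1 ≤ 2 ^ k := Nat.one_le_two_pow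
    have e : 2 ^ (k + 1) - 1 = (2 ^ k - 1) + 1 + (2 ^ k - 1) := by
      have : 2 ^ (k + 1) = 2 * 2 ^ k := by ring
      omega
    have h2 : (List.range (2 ^ k - 1)).map ruler =
        (List.range (2 ^ k - 1)).map (ruler ∘ fun x => 2 ^ k - 1 + 1 + x) := by
      refine List.map_congr_left fun t ht => ?_
      rw [List.mem_range] at ht
      simp only [Function.comp, ruler]
      rw [show 2 ^ k - 1 + 1 + t + 1 = 2 ^ k + (t + 1) by omega,
        val_add dvd_rfl (by omega) (by omega)]
    have h3 : ruler (2 ^ k - 1) = k := by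
      rw [ruler, show 2 ^ k - 1 + 1 = 2 ^ k by omega, val_pow]
    rw [e, List.range_add, List.range_succ, Z, ih]
    simp only [List.map_append, List.map_cons, List.map_nil, List.map_map, h3]
    rw [← h2]

/-- The main theorem: up to renaming the letters, the ruler sequence (the sequence with all Zimin
words as prefixes) is the only squarefree sequence with `nsc (n) ≤ 2 n` for all `n ≥ 1`. The
renaming is a bijection of the alphabet as soon as all letters occur in `y`. -/
theorem result : (∀ k, Z k = (List.range (2 ^ k - 1)).map ruler) ∧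
    ∀ y : ℕ → ℕ, SquareFree y → (∀ n, 1 ≤ n → NscLe y n (2 * n)) →
      ∃ σ : ℕ → ℕ, Function.Injective σ ∧ (∀ t, y t = σ (ruler t)) ∧
        (Function.Surjective y → Function.Bijective σ) := by
  refine ⟨Z_eq, fun y hsf hnsc => ?_⟩
  have hH := H_all hsf fun m hm => C_of_nsc (hnsc m hm)
  have hall : ∀ t u, y t = y u ↔ padicValNat 2 (t + 1) = padicValNat 2 (u + 1) := by
    intro t u
    refine hH (t + u) t u ?_ ?_
    · exact lt_of_lt_of_le Nat.lt_two_pow_self (Nat.pow_le_pow_right (by norm_num) (by omega))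
    · exact lt_of_lt_of_le Nat.lt_two_pow_self (Nat.pow_le_pow_right (by norm_num) (by omega))
  have hpos : ∀ k, 2 ^ k - 1 + 1 = 2 ^ k := fun k => by
    have := Nat.one_le_two_pow (n := k)
    omega
  have hinj : Function.Injective fun k => y (2 ^ k - 1) := by
    intro a b hab
    have h1 := (hall _ _).1 hab
    rwa [hpos, hpos, val_pow, val_pow] at h1
  have heq : ∀ t, y t = y (2 ^ ruler t - 1) := by
    intro t
    rw [hall, hpos, val_pow]
    rfl
  refine ⟨fun k => y (2 ^ k - 1), hinj, heq, fun hsurj => ⟨hinj, fun b => ?_⟩⟩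
  obtain ⟨t, rfl⟩ := hsurj b
  exact ⟨ruler t, (heq t).symm⟩

end Pool.Agent.Results.MP_2232d5_co.RulerUnique
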